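import Pool.Agent.GEN.StmtsR
import Pool.Agent.Helper40_Simp2.Ratpt

/-! GEN, row RAT (integral points in real cells, keeping given natural coordinates). -/

set_option autoImplicit false

namespace Pool.Agent.GEN.H75

open Finset Pool.Agent.Helper6_Mono Pool.Agent.Helper30_Simp Pool.Agent.Helper30_Simp2
  Pool.Agent.Helper30_Simp2.H40

theorem rat : RatStmt := by
  classical
  intro σ _ M w N hN hw hM
  let F : Finset ℝ := insert 1 (((univ : Finset σ).image w ∪
    M.image fun β => dot w β - N).filter fun x => 0 < x)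
  obtain ⟨φ, hφ⟩ := exists_pos_map F (by
    intro x hx
    rcases Finset.mem_insert.1 hx with rfl | hx
    · exact one_pos
    · exact (Finset.mem_filter.1 hx).2)
  have hφ1 : 0 < φ 1 := hφ 1 (Finset.mem_insert_self _ _)
  have hφn : ∀ n : ℕ, φ (n : ℝ) = n * φ 1 := by
    intro n
    have h1 : (n : ℝ) = n • (1 : ℝ) := by rw [nsmul_eq_mul, mul_one]
    rw [h1, map_nsmul, nsmul_eq_mul]
  have hφw : ∀ i, 0 < w i → 0 < φ (w i) := fun i hi => hφ _ (Finset.mem_insert_of_mem
    (Finset.mem_filter.2 ⟨Finset.mem_union_left _ (Finset.mem_image_of_mem _ (mem_univ i)), hi⟩))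
  have hφβ : ∀ β ∈ M, 0 < dot w β - N → 0 < φ (dot w β - N) := fun β hβ h =>
    hφ _ (Finset.mem_insert_of_mem (Finset.mem_filter.2 ⟨Finset.mem_union_right _
      (Finset.mem_image_of_mem (fun β => dot w β - N) hβ), h⟩))
  have hφw0 : ∀ i, φ (w i) = 0 ↔ w i = 0 := by
    intro i
    constructor
    · intro h
      by_contra hne
      exact (hφw i (lt_of_le_of_ne (hw i) (Ne.symm hne))).ne' h
    · intro h
      rw [h, map_zero]
  obtain ⟨K, n, hK, hn⟩ := exists_nat_mul (fun o : Option σ => match o with
    | none => φ 1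
    | some i => φ (w i)) (by
      rintro (_ | i)
      · exact hφ1.le
      · rcases (hw i).eq_or_lt with h | h
        · show 0 ≤ φ (w i)
          rw [← h, map_zero]
        · exact (hφw i h).le)
  have hKQ : (0 : ℚ) < K := by exact_mod_cast hK
  have hn1 : (n none : ℚ) = K * φ 1 := hn none
  have hni : ∀ i, (n (some i) : ℚ) = K * φ (w i) := fun i => hn (some i)
  have hdot : ∀ β : σ →₀ ℕ, ((dot (fun i => n (some i)) β : ℕ) : ℚ) = K * φ (dot w β) := by
    intro β
    unfold dot
    push_cast
    rw [map_sum, Finset.mul_sum]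
    refine Finset.sum_congr rfl fun i _ => ?_
    rw [hni, mul_assoc]
    congr 1
    have : w i * (β i : ℝ) = (β i) • w i := by
      rw [nsmul_eq_mul, mul_comm]
    rw [this, map_nsmul, nsmul_eq_mul, mul_comm]
  have hnN : ((n none * N : ℕ) : ℚ) = K * φ N := by
    push_cast
    rw [hn1, hφn N]
    ring
  refine ⟨n none, fun i => n (some i), ?_, fun i => ?_, fun i m hm => ?_, fun β hβ => ?_⟩
  · have : (0 : ℚ) < n none := by rw [hn1]; positivity
    exact_mod_cast this
  · constructor
    · intro h
      have h1 : (n (some i) : ℚ) = 0 := by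
        have : n (some i) = 0 := h
        rw [this]; simp
      rw [hni, mul_eq_zero] at h1
      exact (hφw0 i).1 (h1.resolve_left hKQ.ne')
    · intro h
      have h1 : (n (some i) : ℚ) = 0 := by rw [hni, (hφw0 i).2 h, mul_zero]
      exact_mod_cast h1
  · have h1 : (n (some i) : ℚ) = ((n none * m : ℕ) : ℚ) := by
      push_cast
      rw [hni, hm, hφn m, hn1]
      ring
    exact_mod_cast h1
  · have hd : ((dot (fun i => n (some i)) β : ℕ) : ℚ) - ((n none * N : ℕ) : ℚ)
        = K * φ (dot w β - N) := by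
      rw [hdot, hnN, map_sub, mul_sub]
    rcases (hM β hβ).eq_or_lt with h | h
    · have h1 : ((dot (fun i => n (some i)) β : ℕ) : ℚ) = ((n none * N : ℕ) : ℚ) := by
        rw [← h, sub_self, map_zero, mul_zero, sub_eq_zero] at hd
        exact hd
      have h2 : dot (fun i => n (some i)) β = n none * N := by exact_mod_cast h1
      exact ⟨h2.ge, fun _ => h.symm, fun _ => h2⟩
    · have h0 : 0 < K * φ (dot w β - N) := mul_pos hKQ (hφβ β hβ (by linarith))
      have h1 : ((n none * N : ℕ) : ℚ) < ((dot (fun i => n (some i)) β : ℕ) : ℚ) := by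
        rw [← hd] at h0
        linarith
      have h2 : n none * N < dot (fun i => n (some i)) β := by exact_mod_cast h1
      exact ⟨h2.le, fun h3 => absurd h3 h2.ne', fun h3 => absurd h3 h.ne'⟩

end Pool.Agent.GEN.H75
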